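import Mathlib
import Pool.Graph.R_pool_sql_team_39128cda.Results.MP_59868e_an.Counter

/-!
The Cancellation Law for translation equidecomposability, for all translation-invariant algebras
of a compact Hausdorff abelian group, holds exactly for the torsion groups.
-/

open Filter Function Pointwise

namespace Pool.Agent.Results.MP_59868e_an.ExactlyTorsionGroups

/-- `A ∼ B`: translation equidecomposability with pieces in `𝒜`. -/
def Equi {X : Type} [AddCommGroup X] (𝒜 : Set (Set X)) (A B : Set X) : Prop :=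
  ∃ (k : ℕ) (P : Fin k → Set X) (g : Fin k → X), (∀ i, P i ∈ 𝒜 ∧ g i +ᵥ P i ∈ 𝒜) ∧
    Pairwise (Disjoint on P) ∧ ⋃ i, P i = A ∧
    Pairwise (Disjoint on fun i => g i +ᵥ P i) ∧ ⋃ i, g i +ᵥ P i = B

/-- `n[A] = n[B]`. -/
def EquiMul {X : Type} [AddCommGroup X] (𝒜 : Set (Set X)) (n : ℕ) (A B : Set X) : Prop :=
  ∃ (k : ℕ) (P : Fin k → Set X) (g : Fin k → X) (j m : Fin k → ℕ),
    (∀ i, P i ∈ 𝒜 ∧ g i +ᵥ P i ∈ 𝒜) ∧
    Pairwise (Disjoint on fun i => P i ×ˢ ({j i} : Set ℕ)) ∧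
    ⋃ i, P i ×ˢ ({j i} : Set ℕ) = A ×ˢ Set.Iio n ∧
    Pairwise (Disjoint on fun i => (g i +ᵥ P i) ×ˢ ({m i} : Set ℕ)) ∧
    ⋃ i, (g i +ᵥ P i) ×ˢ ({m i} : Set ℕ) = B ×ˢ Set.Iio n

/-- `𝒜` is a translation-invariant algebra of subsets of `X`. -/
def InvAlgebra {X : Type} [AddCommGroup X] (𝒜 : Set (Set X)) : Prop :=
  MeasureTheory.IsSetAlgebra 𝒜 ∧ ∀ t : X, ∀ S ∈ 𝒜, t +ᵥ S ∈ 𝒜

/-- The Cancellation Law for `(X, translations, 𝒜)`. -/
def Cancellation {X : Type} [AddCommGroup X] (𝒜 : Set (Set X)) : Prop :=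
  ∀ A ∈ 𝒜, ∀ B ∈ 𝒜, ∀ n : ℕ, 1 ≤ n → EquiMul 𝒜 n A B → Equi 𝒜 A B

open Classical in
noncomputable def ind {X : Type} (S : Set X) (y : X) : ℕ := if y ∈ S then 1 else 0

lemma ind_of_mem {X : Type} {S : Set X} {y : X} (h : y ∈ S) : ind S y = 1 := by simp [ind, h]

lemma ind_of_not_mem {X : Type} {S : Set X} {y : X} (h : y ∉ S) : ind S y = 0 := by simp [ind, h]

lemma ind_congr {X Y : Type} {S : Set X} {T : Set Y} {x : X} {y : Y} (h : x ∈ S ↔ y ∈ T) :
    ind S x = ind T y := by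
  by_cases h1 : x ∈ S
  · rw [ind_of_mem h1, ind_of_mem (h.mp h1)]
  · rw [ind_of_not_mem h1, ind_of_not_mem (fun h2 => h1 (h.mpr h2))]

/-- Counting a partition of `A × {0, ..., n-1}`. -/
lemma ind_sum {X : Type} {k n : ℕ} (P : Fin k → Set X) (j : Fin k → ℕ) (A : Set X)
    (h1 : Pairwise (Disjoint on fun i => P i ×ˢ ({j i} : Set ℕ)))
    (h2 : ⋃ i, P i ×ˢ ({j i} : Set ℕ) = A ×ˢ Set.Iio n) (y : X) :
    ∑ i, ind (P i) y = n * ind A y := by
  classical
  have hmem : ∀ (y : X) (m : ℕ), (∃ i, y ∈ P i ∧ m = j i) ↔ y ∈ A ∧ m < n := by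
    intro y m
    have := Set.ext_iff.mp h2 (y, m)
    simpa using this
  have huniq : ∀ i i', y ∈ P i → y ∈ P i' → j i = j i' → i = i' := by
    intro i i' hi hi' hj
    by_contra hne
    exact Set.disjoint_left.mp (h1 hne) (Set.mk_mem_prod hi rfl)
      (Set.mk_mem_prod hi' hj)
  have e1 : ∑ i, ind (P i) y = (Finset.univ.filter (fun i => y ∈ P i)).card := by
    simp only [ind]
    rw [Finset.card_filter]
  rw [e1]
  by_cases hy : y ∈ A
  · rw [ind_of_mem hy, mul_one]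
    have : (Finset.univ.filter (fun i => y ∈ P i)).card = (Finset.range n).card := by
      refine Finset.card_bij (fun i _ => j i) ?_ ?_ ?_
      · intro i hi
        simp only [Finset.mem_filter, Finset.mem_univ, true_and] at hi
        exact Finset.mem_range.mpr ((hmem y (j i)).mp ⟨i, hi, rfl⟩).2
      · intro i hi i' hi' hj
        simp only [Finset.mem_filter, Finset.mem_univ, true_and] at hi hi'
        exact huniq i i' hi hi' hj
      · intro m hm
        obtain ⟨i, hi, hji⟩ := (hmem y m).mpr ⟨hy, Finset.mem_range.mp hm⟩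
        exact ⟨i, by simpa using hi, hji.symm⟩
    rw [this, Finset.card_range]
  · rw [ind_of_not_mem hy, mul_zero, Finset.card_eq_zero]
    apply Finset.filter_false_of_mem
    intro i _ hi
    exact hy ((hmem y (j i)).mp ⟨i, hi, rfl⟩).1

section torsion
variable {X : Type} [AddCommGroup X]

/-- The greedy matching along a sequence of translations. -/
def greedy (κ : ℕ → X) (A B : Set X) : ℕ → Set X × Set X
  | 0 => (A, B)
  | j + 1 => ((greedy κ A B j).1 \ {x | x ∈ (greedy κ A B j).1 ∧ κ j + x ∈ (greedy κ A B j).2},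
      (greedy κ A B j).2 \
        (κ j +ᵥ {x | x ∈ (greedy κ A B j).1 ∧ κ j + x ∈ (greedy κ A B j).2}))

def piece (κ : ℕ → X) (A B : Set X) (j : ℕ) : Set X :=
  {x | x ∈ (greedy κ A B j).1 ∧ κ j + x ∈ (greedy κ A B j).2}

lemma greedy_succ (κ : ℕ → X) (A B : Set X) (j : ℕ) : greedy κ A B (j + 1) =
    ((greedy κ A B j).1 \ piece κ A B j, (greedy κ A B j).2 \ (κ j +ᵥ piece κ A B j)) := rfl

lemma piece_sub (κ : ℕ → X) (A B : Set X) (j : ℕ) : piece κ A B j ⊆ (greedy κ A B j).1 :=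
  fun _ h => h.1

lemma piece_sub' (κ : ℕ → X) (A B : Set X) (j : ℕ) :
    κ j +ᵥ piece κ A B j ⊆ (greedy κ A B j).2 := by
  rintro _ ⟨x, hx, rfl⟩
  exact hx.2

lemma greedy_mem {𝒜 : Set (Set X)} (h𝒜 : InvAlgebra 𝒜) (κ : ℕ → X) {A B : Set X} (hA : A ∈ 𝒜)
    (hB : B ∈ 𝒜) (j : ℕ) : (greedy κ A B j).1 ∈ 𝒜 ∧ (greedy κ A B j).2 ∈ 𝒜 ∧
      piece κ A B j ∈ 𝒜 := by
  have hp : ∀ j, (greedy κ A B j).1 ∈ 𝒜 → (greedy κ A B j).2 ∈ 𝒜 → piece κ A B j ∈ 𝒜 := by
    intro j h1 h2
    have : piece κ A B j = (greedy κ A B j).1 ∩ (-κ j +ᵥ (greedy κ A B j).2) := by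
      ext x
      simp [piece, Set.mem_vadd_set_iff_neg_vadd_mem]
    rw [this]
    exact h𝒜.1.inter_mem h1 (h𝒜.2 _ _ h2)
  induction j with
  | zero => exact ⟨hA, hB, hp 0 hA hB⟩
  | succ j ih =>
    have h1 : (greedy κ A B (j + 1)).1 ∈ 𝒜 := by
      rw [greedy_succ]
      exact h𝒜.1.sdiff_mem ih.1 ih.2.2
    have h2 : (greedy κ A B (j + 1)).2 ∈ 𝒜 := by
      rw [greedy_succ]
      exact h𝒜.1.sdiff_mem ih.2.1 (h𝒜.2 _ _ ih.2.2)
    exact ⟨h1, h2, hp _ h1 h2⟩

lemma greedy_anti (κ : ℕ → X) (A B : Set X) {i j : ℕ} (h : i ≤ j) :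
    (greedy κ A B j).1 ⊆ (greedy κ A B i).1 ∧ (greedy κ A B j).2 ⊆ (greedy κ A B i).2 := by
  induction j, h using Nat.le_induction with
  | base => exact ⟨subset_rfl, subset_rfl⟩
  | succ j _ ih =>
    rw [greedy_succ]
    exact ⟨Set.sdiff_subset.trans ih.1, Set.sdiff_subset.trans ih.2⟩

lemma greedy_union (κ : ℕ → X) (A B : Set X) (N : ℕ) :
    (∀ x ∈ A, x ∈ (greedy κ A B N).1 ∨ ∃ j < N, x ∈ piece κ A B j) ∧
    (∀ x ∈ B, x ∈ (greedy κ A B N).2 ∨ ∃ j < N, x ∈ κ j +ᵥ piece κ A B j) := by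
  induction N with
  | zero => exact ⟨fun x hx => Or.inl hx, fun x hx => Or.inl hx⟩
  | succ N ih =>
    constructor
    · intro x hx
      rcases ih.1 x hx with h | ⟨j, hj, h⟩
      · by_cases h2 : x ∈ piece κ A B N
        · exact Or.inr ⟨N, by omega, h2⟩
        · exact Or.inl ⟨h, h2⟩
      · exact Or.inr ⟨j, by omega, h⟩
    · intro x hx
      rcases ih.2 x hx with h | ⟨j, hj, h⟩
      · by_cases h2 : x ∈ κ N +ᵥ piece κ A B N
        · exact Or.inr ⟨N, by omega, h2⟩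
        · exact Or.inl ⟨h, h2⟩
      · exact Or.inr ⟨j, by omega, h⟩

/-- The number of points of `S` in the coset of `K` through `x`. -/
noncomputable def cnt (K : AddSubgroup X) [Fintype K] (S : Set X) (x : X) : ℕ :=
  ∑ κ : K, ind S ((κ : X) + x)

lemma cnt_vadd (K : AddSubgroup X) [Fintype K] (S : Set X) (x g : X) (hg : g ∈ K) :
    cnt K (g +ᵥ S) x = cnt K S x := by
  unfold cnt
  refine Fintype.sum_equiv (Equiv.addLeft (-⟨g, hg⟩ : K)) _ _ (fun κ => ?_)
  apply ind_congr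
  rw [Set.mem_vadd_set_iff_neg_vadd_mem]
  simp [add_assoc]

lemma cnt_sdiff (K : AddSubgroup X) [Fintype K] {S T : Set X} (h : T ⊆ S) (x : X) :
    cnt K (S \ T) x + cnt K T x = cnt K S x := by
  unfold cnt
  rw [← Finset.sum_add_distrib]
  refine Finset.sum_congr rfl (fun κ _ => ?_)
  by_cases h1 : (κ : X) + x ∈ T
  · rw [ind_of_mem h1, ind_of_mem (h h1), ind_of_not_mem (fun h2 => h2.2 h1)]
  · rw [ind_of_not_mem h1, add_zero]
    exact ind_congr ⟨fun h2 => h2.1, fun h2 => ⟨h2, h1⟩⟩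

lemma cnt_greedy (K : AddSubgroup X) [Fintype K] (κ : ℕ → X) (hκ : ∀ j, κ j ∈ K) (A B : Set X)
    (h : ∀ x, cnt K A x = cnt K B x) (N : ℕ) (x : X) :
    cnt K (greedy κ A B N).1 x = cnt K (greedy κ A B N).2 x := by
  induction N with
  | zero => exact h x
  | succ N ih =>
    have h1 := cnt_sdiff K (piece_sub κ A B N) x
    have h2 := cnt_sdiff K (piece_sub' κ A B N) x
    rw [cnt_vadd K _ x _ (hκ N)] at h2
    rw [greedy_succ]
    simp only
    omega

lemma exists_of_cnt (K : AddSubgroup X) [Fintype K] {S T : Set X} {x : X}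
    (h : cnt K S x = cnt K T x) (hx : x ∈ S) : ∃ κ ∈ K, κ + x ∈ T := by
  by_contra hne
  push Not at hne
  have h1 : cnt K T x = 0 := by
    unfold cnt
    exact Finset.sum_eq_zero (fun κ _ => ind_of_not_mem (hne κ κ.2))
  have h2 : 0 < cnt K S x := by
    unfold cnt
    refine Finset.sum_pos' (fun _ _ => Nat.zero_le _) ⟨0, Finset.mem_univ _, ?_⟩
    rw [ind_of_mem (by simpa using hx)]
    norm_num
  omega

theorem cancel_of_torsion (hX : ∀ x : X, IsOfFinAddOrder x) (𝒜 : Set (Set X))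
    (h𝒜 : InvAlgebra 𝒜) : Cancellation 𝒜 := by
  classical
  rintro A hA B hB n hn ⟨k, P, g, j, m, h1, h2, h3, h4, h5⟩
  let K : AddSubgroup X := AddSubgroup.closure (Set.range g)
  have hfg : AddGroup.FG K := AddGroup.closure_finite_fg (Set.range g)
  have hfin : Finite K := by
    refine AddCommGroup.finite_of_fg_isAddTorsion K ?_
    intro x
    obtain ⟨r, hr, hr0⟩ := isOfFinAddOrder_iff_nsmul_eq_zero.mp (hX (x : X))
    exact isOfFinAddOrder_iff_nsmul_eq_zero.mpr ⟨r, hr, Subtype.ext (by simpa using hr0)⟩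
  have hft : Fintype K := Fintype.ofFinite K
  have hgK : ∀ i, g i ∈ K := fun i => AddSubgroup.subset_closure ⟨i, rfl⟩
  have hAB : ∀ x, cnt K A x = cnt K B x := by
    intro x
    have e1 : n * cnt K A x = ∑ i, cnt K (P i) x := by
      unfold cnt
      rw [Finset.sum_comm, Finset.mul_sum]
      exact Finset.sum_congr rfl (fun κ _ => (ind_sum P j A h2 h3 _).symm)
    have e2 : n * cnt K B x = ∑ i, cnt K (g i +ᵥ P i) x := by
      unfold cnt
      rw [Finset.sum_comm, Finset.mul_sum]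
      exact Finset.sum_congr rfl (fun κ _ => (ind_sum _ m B h4 h5 _).symm)
    have e3 : n * cnt K A x = n * cnt K B x := by
      rw [e1, e2]
      exact Finset.sum_congr rfl (fun i _ => (cnt_vadd K _ x _ (hgK i)).symm)
    exact Nat.eq_of_mul_eq_mul_left (by omega) e3
  obtain ⟨N, ⟨e⟩⟩ := Finite.exists_equiv_fin K
  let κ : ℕ → X := fun j => if h : j < N then ((e.symm ⟨j, h⟩ : K) : X) else 0
  have hκ : ∀ j, κ j ∈ K := by
    intro j
    by_cases h : j < N
    · simp only [κ, h, dif_pos]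
      exact (e.symm ⟨j, h⟩).2
    · simp only [κ, h, dif_neg, not_false_eq_true]
      exact K.zero_mem
  have hκs : ∀ x ∈ K, ∃ j < N, κ j = x := by
    intro x hx
    refine ⟨(e ⟨x, hx⟩).1, (e ⟨x, hx⟩).2, ?_⟩
    simp [κ]
  have hc := cnt_greedy K κ hκ A B hAB
  have hA0 : (greedy κ A B N).1 = ∅ := by
    rw [Set.eq_empty_iff_forall_notMem]
    intro x hx
    obtain ⟨c, hcK, hcB⟩ := exists_of_cnt K (hc N x) hx
    obtain ⟨i, hi, rfl⟩ := hκs c hcK
    have h6 : x ∈ piece κ A B i :=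
      ⟨(greedy_anti κ A B hi.le).1 hx, (greedy_anti κ A B hi.le).2 hcB⟩
    have h7 := (greedy_anti κ A B (Nat.succ_le_of_lt hi)).1 hx
    rw [Nat.succ_eq_add_one, greedy_succ] at h7
    exact h7.2 h6
  have hB0 : (greedy κ A B N).2 = ∅ := by
    rw [Set.eq_empty_iff_forall_notMem]
    intro x hx
    obtain ⟨c, hcK, hcA⟩ := exists_of_cnt K (hc N x).symm hx
    rw [hA0] at hcA
    exact hcA
  have hdis : ∀ i i' : ℕ, i < i' → Disjoint (piece κ A B i) (piece κ A B i') ∧
      Disjoint (κ i +ᵥ piece κ A B i) (κ i' +ᵥ piece κ A B i') := by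
    intro i i' hi
    have h6 := greedy_anti κ A B (Nat.succ_le_of_lt hi)
    rw [Nat.succ_eq_add_one, greedy_succ] at h6
    constructor
    · rw [Set.disjoint_left]
      intro x hx hx'
      exact (h6.1 (piece_sub κ A B i' hx')).2 hx
    · rw [Set.disjoint_left]
      intro x hx hx'
      exact (h6.2 (piece_sub' κ A B i' hx')).2 hx
  refine ⟨N, fun i => piece κ A B i, fun i => κ i, ?_, ?_, ?_, ?_, ?_⟩
  · intro i
    exact ⟨(greedy_mem h𝒜 κ hA hB i).2.2, h𝒜.2 _ _ (greedy_mem h𝒜 κ hA hB i).2.2⟩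
  · intro i i' hne
    rcases lt_or_gt_of_ne (fun h => hne (Fin.ext h) : (i : ℕ) ≠ i') with h | h
    · exact (hdis _ _ h).1
    · exact (hdis _ _ h).1.symm
  · ext x
    simp only [Set.mem_iUnion]
    constructor
    · rintro ⟨i, hi⟩
      exact (greedy_anti κ A B (Nat.zero_le _)).1 (piece_sub κ A B i hi)
    · intro hx
      rcases (greedy_union κ A B N).1 x hx with h | ⟨i, hi, h⟩
      · rw [hA0] at h
        exact h.elim
      · exact ⟨⟨i, hi⟩, h⟩
  · intro i i' hne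
    rcases lt_or_gt_of_ne (fun h => hne (Fin.ext h) : (i : ℕ) ≠ i') with h | h
    · exact (hdis _ _ h).2
    · exact (hdis _ _ h).2.symm
  · ext x
    simp only [Set.mem_iUnion]
    constructor
    · rintro ⟨i, hi⟩
      exact (greedy_anti κ A B (Nat.zero_le _)).2 (piece_sub' κ A B i hi)
    · intro hx
      rcases (greedy_union κ A B N).2 x hx with h | ⟨i, hi, h⟩
      · rw [hB0] at h
        exact h.elim
      · exact ⟨⟨i, hi⟩, h⟩

end torsion

section mixed
variable {X : Type} [AddCommGroup X] {n : ℕ} [NeZero n] (ι : ℤ × ZMod n →+ X)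

def Alg : Set (Set X) :=
  {E | ∀ x : X, ∀ᶠ k : ℤ in atTop, ∀ j : ZMod n, (x + ι (k, 0) ∈ E ↔ x + ι (k, j) ∈ E)}

lemma alg_inv : InvAlgebra (Alg ι) := by
  refine ⟨⟨fun x => by simp, fun S hS x => ?_, fun S T hS hT x => ?_⟩, fun t S hS x => ?_⟩
  · exact (hS x).mono fun k hk j => not_congr (hk j)
  · exact ((hS x).and (hT x)).mono fun k hk j => or_congr (hk.1 j) (hk.2 j)
  · filter_upwards [hS (-t + x)] with k hk j
    simp only [Set.mem_vadd_set_iff_neg_vadd_mem, vadd_eq_add, ← add_assoc]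
    exact hk j

lemma alg_pt (hι : Injective ι) (p : X) : ({p} : Set X) ∈ Alg ι := by
  intro x
  by_cases h : ∃ (k : ℤ) (j : ZMod n), x + ι (k, j) = p
  · obtain ⟨k0, j0, h0⟩ := h
    filter_upwards [eventually_gt_atTop k0] with k hk j
    have : ∀ j, x + ι (k, j) ≠ p := by
      intro j e
      have := hι (add_left_cancel (e.trans h0.symm))
      simp only [Prod.mk.injEq] at this
      omega
    simp [this]
  · push Not at h
    simp [h]

/-- The half line `ι (k, j)`, `k ≥ 0`. -/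
def Hh : Set X := {p | ∃ z : ℤ × ZMod n, 0 ≤ z.1 ∧ ι z = p}

lemma mem_Hh (hι : Injective ι) (z : ℤ × ZMod n) : ι z ∈ Hh ι ↔ 0 ≤ z.1 := by
  constructor
  · rintro ⟨w, hw, e⟩
    rwa [← hι e]
  · intro h
    exact ⟨z, h, rfl⟩

lemma alg_Hh : Hh ι ∈ Alg ι := by
  intro x
  refine Eventually.of_forall fun k j => ?_
  constructor
  · rintro ⟨z, hz, e⟩
    refine ⟨z + (0, j), by simpa using hz, ?_⟩
    rw [map_add, e, add_assoc, ← map_add]
    simp
  · rintro ⟨z, hz, e⟩
    refine ⟨z - (0, j), by simpa using hz, ?_⟩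
    rw [map_sub, e, add_sub_assoc, ← map_sub]
    simp

noncomputable def fl (C : Set X) (k : ℤ) : ZMod n := ∑ j : ZMod n, (ind C (ι (k, j)) : ZMod n)

noncomputable def theta (C : Set X) : ZMod n := ∑ᶠ k : ℤ, fl ι C k

lemma fl_zero {C : Set X} {k : ℤ} (h : ∀ j : ZMod n, ι (k, 0) ∈ C ↔ ι (k, j) ∈ C) :
    fl ι C k = 0 := by
  unfold fl
  rw [Finset.sum_congr rfl (fun j _ => by rw [ind_congr (h j).symm])]
  rw [Finset.sum_const, Finset.card_univ, ZMod.card, nsmul_eq_mul, ZMod.natCast_self, zero_mul]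

lemma fl_fin (hι : Injective ι) {C : Set X} (hC : C ∈ Alg ι) (h : C ⊆ Hh ι) :
    (support (fl ι C)).Finite := by
  obtain ⟨N, hN⟩ := eventually_atTop.1 (hC 0)
  refine (Set.finite_Ico (0 : ℤ) N).subset (fun k hk => ?_)
  by_contra hc
  apply hk
  by_cases h0 : 0 ≤ k
  · have hNk : N ≤ k := by
      by_contra h1
      exact hc ⟨h0, by omega⟩
    have := hN k hNk
    simp only [zero_add] at this
    exact fl_zero ι this
  · have h1 : ∀ j : ZMod n, ι (k, j) ∉ C := fun j hj => h0 ((mem_Hh ι hι (k, j)).mp (h hj))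
    exact fl_zero ι (fun j => by simp [h1])

lemma theta_vadd {C : Set X} (t : X) (h : C ⊆ Hh ι) (h' : t +ᵥ C ⊆ Hh ι) :
    theta ι (t +ᵥ C) = theta ι C := by
  rcases C.eq_empty_or_nonempty with rfl | ⟨c, hc⟩
  · simp
  · obtain ⟨z, -, hz⟩ := h hc
    obtain ⟨w, -, hw⟩ := h' ⟨c, hc, rfl⟩
    have ht : t = ι (w - z) := by
      rw [map_sub, hw, hz]
      simp
    set s : ℤ × ZMod n := w - z
    have hfl : ∀ k : ℤ, fl ι (t +ᵥ C) k = fl ι C (-s.1 + k) := by
      intro k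
      unfold fl
      refine Fintype.sum_equiv (Equiv.addLeft (-s.2)) _ _ (fun j => ?_)
      congr 1
      apply ind_congr
      rw [Set.mem_vadd_set_iff_neg_vadd_mem, vadd_eq_add, ht, ← map_neg, ← map_add]
      rfl
    unfold theta
    rw [finsum_congr hfl]
    exact finsum_comp_equiv (Equiv.addLeft (-s.1))

lemma theta_sum (hι : Injective ι) {k r : ℕ} (P : Fin k → Set X) (A : Set X)
    (hP : ∀ i, P i ∈ Alg ι) (hAm : A ∈ Alg ι)
    (hA : A ⊆ Hh ι) (hPA : ∀ i, P i ⊆ A)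
    (hs : ∀ y, ∑ i, ind (P i) y = r * ind A y) :
    ∑ i, theta ι (P i) = r * theta ι A := by
  unfold theta
  rw [← finsum_sum_comm _ _ (fun i _ => fl_fin ι hι (hP i) ((hPA i).trans hA)),
    mul_finsum' _ _ (fl_fin ι hι hAm hA)]
  refine finsum_congr (fun l => ?_)
  unfold fl
  rw [Finset.sum_comm, Finset.mul_sum]
  refine Finset.sum_congr rfl (fun c _ => ?_)
  have := congrArg (Nat.cast : ℕ → ZMod n) (hs (ι (l, c)))
  push_cast at this
  exact this

lemma theta_Hh (hι : Injective ι) : theta ι (Hh ι) = 0 := by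
  unfold theta
  refine finsum_eq_zero_of_forall_eq_zero (fun k => fl_zero ι (fun j => ?_))
  rw [mem_Hh ι hι, mem_Hh ι hι]

lemma fl_pt (hι : Injective ι) (k : ℤ) : fl ι ({0} : Set X) k = if k = 0 then 1 else 0 := by
  unfold fl
  have h0 : ∀ j : ZMod n, ι (k, j) ∈ ({0} : Set X) ↔ k = 0 ∧ j = 0 := by
    intro j
    rw [Set.mem_singleton_iff, map_eq_zero_iff ι hι, Prod.mk_eq_zero]
  rw [Finset.sum_eq_single 0]
  · split_ifs with hk
    · rw [ind_of_mem ((h0 0).mpr ⟨hk, rfl⟩)]; simp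
    · rw [ind_of_not_mem (fun h => hk ((h0 0).mp h).1)]; simp
  · intro j _ hj
    rw [ind_of_not_mem (fun h => hj ((h0 j).mp h).2)]; simp
  · simp

lemma theta_Hh' (hι : Injective ι) : theta ι (Hh ι \ {0}) = -1 := by
  have h1 : ∀ k, fl ι (Hh ι \ {0}) k = if k = 0 then -1 else 0 := by
    intro k
    have h2 : fl ι (Hh ι \ {0}) k + fl ι ({0} : Set X) k = fl ι (Hh ι) k := by
      unfold fl
      rw [← Finset.sum_add_distrib]
      refine Finset.sum_congr rfl (fun j _ => ?_)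
      rw [← Nat.cast_add]
      congr 1
      by_cases h : ι (k, j) = 0
      · have hm : ι (k, j) ∈ Hh ι := by
          rw [h]
          exact ⟨0, le_rfl, map_zero ι⟩
        rw [ind_of_mem (S := ({0} : Set X)) h, ind_of_mem hm,
          ind_of_not_mem (fun h2 => h2.2 h)]
      · rw [ind_of_not_mem (S := ({0} : Set X)) h, add_zero]
        exact ind_congr ⟨fun h2 => h2.1, fun h2 => ⟨h2, h⟩⟩
    have h3 : fl ι (Hh ι) k = 0 := fl_zero ι (fun j => by rw [mem_Hh ι hι, mem_Hh ι hι])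
    rw [h3, fl_pt ι hι] at h2
    rw [eq_neg_of_add_eq_zero_left h2]
    split_ifs <;> simp
  unfold theta
  rw [finsum_congr h1, finsum_eq_single _ 0]
  · simp
  · intro k hk
    simp [hk]

lemma piece_sub_of {k r : ℕ} {P : Fin k → Set X} {j : Fin k → ℕ} {A : Set X}
    (h2 : ⋃ i, P i ×ˢ ({j i} : Set ℕ) = A ×ˢ Set.Iio r) (i : Fin k) : P i ⊆ A := by
  intro y hy
  have : (y, j i) ∈ ⋃ i, P i ×ˢ ({j i} : Set ℕ) :=
    Set.mem_iUnion.mpr ⟨i, Set.mk_mem_prod hy rfl⟩
  rw [h2] at this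
  exact this.1

theorem dvd_of_equiMul (hι : Injective ι) (r : ℕ)
    (h : EquiMul (Alg ι) r (Hh ι) (Hh ι \ {0})) : n ∣ r := by
  obtain ⟨k, P, g, j, m, h1, h2, h3, h4, h5⟩ := h
  have hD : Hh ι \ {0} ∈ Alg ι := (alg_inv ι).1.sdiff_mem (alg_Hh ι) (alg_pt ι hι 0)
  have e1 := theta_sum ι hι P (Hh ι) (fun i => (h1 i).1) (alg_Hh ι) subset_rfl
    (piece_sub_of h3) (ind_sum P j _ h2 h3)
  have e2 := theta_sum ι hι (fun i => g i +ᵥ P i) (Hh ι \ {0}) (fun i => (h1 i).2) hD
    Set.sdiff_subset (piece_sub_of h5) (ind_sum _ m _ h4 h5)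
  have e3 : ∑ i, theta ι (g i +ᵥ P i) = ∑ i, theta ι (P i) :=
    Finset.sum_congr rfl (fun i _ => theta_vadd ι (g i) (piece_sub_of h3 i)
      ((piece_sub_of h5 i).trans Set.sdiff_subset))
  rw [e3, e1, theta_Hh ι hι, theta_Hh' ι hι] at e2
  have : (r : ZMod n) = 0 := by linear_combination e2
  exact (ZMod.natCast_eq_zero_iff r n).mp this

end mixed

lemma equiMul_of {X : Type} [AddCommGroup X] {𝒜 : Set (Set X)} {n : ℕ} {A B : Set X}
    {κ : Type} [Fintype κ] (P : κ → Set X) (g : κ → X) (j m : κ → ℕ)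
    (hP : ∀ i, P i ∈ 𝒜 ∧ g i +ᵥ P i ∈ 𝒜)
    (h1 : ∀ y c, (∃ i, y ∈ P i ∧ c = j i) ↔ y ∈ A ∧ c < n)
    (h1' : ∀ y i i', y ∈ P i → y ∈ P i' → j i = j i' → i = i')
    (h2 : ∀ y c, (∃ i, y ∈ g i +ᵥ P i ∧ c = m i) ↔ y ∈ B ∧ c < n)
    (h2' : ∀ y i i', y ∈ g i +ᵥ P i → y ∈ g i' +ᵥ P i' → m i = m i' → i = i') :
    EquiMul 𝒜 n A B := by
  let e := Fintype.equivFin κ
  refine ⟨Fintype.card κ, fun i => P (e.symm i), fun i => g (e.symm i), fun i => j (e.symm i),
    fun i => m (e.symm i), fun i => hP _, ?_, ?_, ?_, ?_⟩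
  · intro i i' hne
    refine Set.disjoint_left.mpr ?_
    rintro ⟨y, c⟩ ⟨hy, hc⟩ ⟨hy', hc'⟩
    exact hne (e.symm.injective (h1' y _ _ hy hy' (hc.symm.trans hc')))
  · ext ⟨y, c⟩
    simp only [Set.mem_iUnion, Set.mem_prod, Set.mem_singleton_iff, Set.mem_Iio]
    rw [← h1 y c]
    exact ⟨fun ⟨i, hi⟩ => ⟨_, hi⟩, fun ⟨i, hi⟩ => ⟨e i, by simpa using hi⟩⟩
  · intro i i' hne
    refine Set.disjoint_left.mpr ?_
    rintro ⟨y, c⟩ ⟨hy, hc⟩ ⟨hy', hc'⟩
    exact hne (e.symm.injective (h2' y _ _ hy hy' (hc.symm.trans hc')))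
  · ext ⟨y, c⟩
    simp only [Set.mem_iUnion, Set.mem_prod, Set.mem_singleton_iff, Set.mem_Iio]
    rw [← h2 y c]
    exact ⟨fun ⟨i, hi⟩ => ⟨_, hi⟩, fun ⟨i, hi⟩ => ⟨e i, by simpa using hi⟩⟩

theorem equiMul_mixed {X : Type} [AddCommGroup X] {n : ℕ} [NeZero n] (ι : ℤ × ZMod n →+ X)
    (hι : Injective ι) : EquiMul (Alg ι) n (Hh ι) (Hh ι \ {0}) := by
  have hpt := alg_pt ι hι 0
  have hH := alg_Hh ι
  have hD : Hh ι \ {0} ∈ Alg ι := (alg_inv ι).1.sdiff_mem hH hpt
  have h0H : (0 : X) ∈ Hh ι := ⟨0, le_rfl, map_zero ι⟩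
  let P : Fin n × Bool → Set X := fun i =>
    if i.2 then (if i.1 = 0 then Hh ι else Hh ι \ {0}) else (if i.1 = 0 then ∅ else {0})
  let g : Fin n × Bool → X := fun i =>
    if i.2 then (if i.1 = 0 then ι (1, 0) else 0) else ι (0, ((i.1 : ℕ) : ZMod n))
  have hshift : ∀ y, y ∈ ι (1, 0) +ᵥ Hh ι ↔ ∃ z : ℤ × ZMod n, 1 ≤ z.1 ∧ ι z = y := by
    intro y
    constructor
    · rintro ⟨_, ⟨z, hz, rfl⟩, rfl⟩
      exact ⟨(1, 0) + z, by simpa using hz, by simp⟩
    · rintro ⟨z, hz, rfl⟩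
      exact ⟨_, ⟨z - (1, 0), by simpa using hz, rfl⟩, by simp⟩
  refine equiMul_of P g (fun i => i.1) (fun i => if i.2 then i.1 else 0) ?_ ?_ ?_ ?_ ?_
  · intro i
    have : P i ∈ Alg ι := by
      simp only [P]
      split_ifs
      · exact hH
      · exact hD
      · exact (alg_inv ι).1.empty_mem
      · exact hpt
    exact ⟨this, (alg_inv ι).2 _ _ this⟩
  · intro y c
    constructor
    · rintro ⟨⟨i, b⟩, hi, rfl⟩
      refine ⟨?_, i.2⟩
      simp only [P] at hi
      split_ifs at hi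
      · exact hi
      · exact hi.1
      · exact hi.elim
      · rw [Set.mem_singleton_iff.mp hi]
        exact h0H
    · rintro ⟨hy, hc⟩
      by_cases h0 : (⟨c, hc⟩ : Fin n) = 0
      · exact ⟨(⟨c, hc⟩, true), by simp only [P, h0, if_true]; exact hy, rfl⟩
      · by_cases hy0 : y = 0
        · refine ⟨(⟨c, hc⟩, false), ?_, rfl⟩
          simp only [P, h0, if_false, Bool.false_eq_true]
          exact hy0
        · refine ⟨(⟨c, hc⟩, true), ?_, rfl⟩
          simp only [P, h0, if_false, if_true]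
          exact ⟨hy, hy0⟩
  · rintro y ⟨i, b⟩ ⟨i', b'⟩ h1 h2 h3
    have : i = i' := Fin.ext h3
    subst this
    cases b <;> cases b'
    · rfl
    · exfalso
      simp only [P, Bool.false_eq_true, if_false, if_true] at h1 h2
      split_ifs at h1 h2
      · exact h1.elim
      · exact h2.2 h1
    · exfalso
      simp only [P, Bool.false_eq_true, if_false, if_true] at h1 h2
      split_ifs at h1 h2
      · exact h2.elim
      · exact h1.2 h2
    · rfl
  · intro y c
    constructor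
    · rintro ⟨⟨i, b⟩, hi, rfl⟩
      cases b
      · simp only [P, g, Bool.false_eq_true, if_false] at hi ⊢
        refine ⟨?_, Nat.pos_of_neZero n⟩
        split_ifs at hi with h0
        · simp at hi
        · simp only [Set.vadd_set_singleton, vadd_eq_add, add_zero, Set.mem_singleton_iff] at hi
          subst hi
          refine ⟨(mem_Hh ι hι _).mpr le_rfl, ?_⟩
          rw [Set.mem_singleton_iff, map_eq_zero_iff ι hι, Prod.mk_eq_zero]
          rintro ⟨-, h2⟩
          rw [ZMod.natCast_eq_zero_iff] at h2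
          exact h0 (Fin.ext (Nat.eq_zero_of_dvd_of_lt h2 i.2))
      · simp only [P, g, if_true] at hi ⊢
        refine ⟨?_, i.2⟩
        split_ifs at hi with h0
        · obtain ⟨z, hz, rfl⟩ := (hshift y).mp hi
          refine ⟨(mem_Hh ι hι z).mpr (by omega), ?_⟩
          rw [Set.mem_singleton_iff, map_eq_zero_iff ι hι]
          rintro rfl
          simp at hz
        · rwa [zero_vadd] at hi
    · rintro ⟨⟨hy, hy0⟩, hc⟩
      by_cases h0 : (⟨c, hc⟩ : Fin n) = 0
      · have hc0 : c = 0 := by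
          have := congrArg Fin.val h0
          simpa using this
        obtain ⟨z, hz, rfl⟩ := hy
        by_cases hz1 : 1 ≤ z.1
        · refine ⟨(0, true), ?_, by simp [hc0]⟩
          simp only [P, g, if_true]
          exact (hshift _).mpr ⟨z, hz1, rfl⟩
        · have hz0 : z.1 = 0 := by omega
          have hz2 : z.2 ≠ 0 := by
            intro h2
            apply hy0
            have : z = 0 := Prod.ext hz0 h2
            rw [this, map_zero]
            rfl
          refine ⟨(⟨z.2.val, ZMod.val_lt z.2⟩, false), ?_, by simp [hc0]⟩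
          have hne : (⟨z.2.val, ZMod.val_lt z.2⟩ : Fin n) ≠ 0 := by
            intro h2
            apply hz2
            have := congrArg Fin.val h2
            simpa using this
          simp only [P, g, Bool.false_eq_true, if_false, hne]
          simp only [Set.vadd_set_singleton, vadd_eq_add, add_zero, Set.mem_singleton_iff]
          congr 1
          exact Prod.ext hz0 (by simp)
      · refine ⟨(⟨c, hc⟩, true), ?_, rfl⟩
        simp only [P, g, if_true, h0, if_false, zero_vadd]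
        exact ⟨hy, hy0⟩
  · rintro y ⟨i, b⟩ ⟨i', b'⟩ h1 h2 h3
    cases b <;> cases b'
    · simp only [P, g, Bool.false_eq_true, if_false] at h1 h2
      split_ifs at h1 h2 with c1 c2 c2
      · simp at h1
      · simp at h1
      · simp at h2
      · simp only [Set.vadd_set_singleton, vadd_eq_add, add_zero, Set.mem_singleton_iff] at h1 h2
        have := hι (h1.symm.trans h2)
        have h4 : ((i : ℕ) : ZMod n) = ((i' : ℕ) : ZMod n) := (Prod.mk.inj this).2
        rw [ZMod.natCast_eq_natCast_iff', Nat.mod_eq_of_lt i.2, Nat.mod_eq_of_lt i'.2] at h4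
        rw [Fin.ext h4]
    · exfalso
      simp only [Bool.false_eq_true, if_false, if_true] at h3
      have hi' : i' = 0 := Fin.ext (by simpa using h3.symm)
      subst hi'
      simp only [P, g, Bool.false_eq_true, if_false, if_true] at h1 h2
      split_ifs at h1
      · simp at h1
      · simp only [Set.vadd_set_singleton, vadd_eq_add, add_zero, Set.mem_singleton_iff] at h1
        obtain ⟨z, hz, e⟩ := (hshift y).mp h2
        have := hι (e.trans h1)
        rw [this] at hz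
        simp at hz
    · exfalso
      simp only [Bool.false_eq_true, if_false, if_true] at h3
      have hi : i = 0 := Fin.ext (by simpa using h3)
      subst hi
      simp only [P, g, Bool.false_eq_true, if_false, if_true] at h1 h2
      split_ifs at h2
      · simp at h2
      · simp only [Set.vadd_set_singleton, vadd_eq_add, add_zero, Set.mem_singleton_iff] at h2
        obtain ⟨z, hz, e⟩ := (hshift y).mp h1
        have := hι (e.trans h2)
        rw [this] at hz
        simp at hz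
    · simp only [if_true] at h3
      rw [Fin.ext h3]

lemma equiMul_one {X : Type} [AddCommGroup X] {𝒜 : Set (Set X)} {A B : Set X}
    (h : Equi 𝒜 A B) : EquiMul 𝒜 1 A B := by
  obtain ⟨k, P, g, h1, h2, h3, h4, h5⟩ := h
  refine equiMul_of P g (fun _ => 0) (fun _ => 0) h1 ?_ ?_ ?_ ?_
  · intro y c
    rw [← h3]
    simp only [Set.mem_iUnion, Nat.lt_one_iff]
    exact ⟨fun ⟨i, hi, hc⟩ => ⟨⟨i, hi⟩, hc⟩, fun ⟨⟨i, hi⟩, hc⟩ => ⟨i, hi, hc⟩⟩
  · intro y i i' hi hi' _
    by_contra hne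
    exact Set.disjoint_left.mp (h2 hne) hi hi'
  · intro y c
    rw [← h5]
    simp only [Set.mem_iUnion, Nat.lt_one_iff]
    exact ⟨fun ⟨i, hi, hc⟩ => ⟨⟨i, hi⟩, hc⟩, fun ⟨⟨i, hi⟩, hc⟩ => ⟨i, hi, hc⟩⟩
  · intro y i i' hi hi' _
    by_contra hne
    exact Set.disjoint_left.mp (h4 hne) hi hi'

/-- An element of infinite order and an element of finite order `n`. -/
lemma exists_hom {X : Type} [AddCommGroup X] {n : ℕ} (hn : 0 < n) (a b : X)
    (ha : ¬ IsOfFinAddOrder a) (hb : addOrderOf b = n) :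
    ∃ ι : ℤ × ZMod n →+ X, Injective ι := by
  have hb0 : (zmultiplesHom X b) (n : ℤ) = 0 := by
    simp [← hb, addOrderOf_nsmul_eq_zero]
  let ι : ℤ × ZMod n →+ X :=
    AddMonoidHom.coprod (zmultiplesHom X a) (ZMod.lift n ⟨zmultiplesHom X b, hb0⟩)
  refine ⟨ι, ?_⟩
  rw [injective_iff_map_eq_zero]
  rintro ⟨k, j⟩ h
  obtain ⟨j', rfl⟩ := ZMod.intCast_surjective j
  have h1 : k • a + j' • b = 0 := by
    simpa [ι] using h
  have h2 : ((n : ℤ) * k) • a = 0 := by
    have h3 : (n : ℤ) • (k • a + j' • b) = 0 := by rw [h1, smul_zero]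
    have h4 : (n : ℤ) • (j' • b) = 0 := by
      rw [smul_comm, natCast_zsmul, ← hb, addOrderOf_nsmul_eq_zero, smul_zero]
    rw [smul_add, h4, add_zero, smul_smul] at h3
    exact h3
  have hk : k = 0 := by
    by_contra hk
    apply ha
    rw [isOfFinAddOrder_iff_zsmul_eq_zero]
    exact ⟨_, mul_ne_zero (by exact_mod_cast hn.ne') hk, h2⟩
  subst hk
  rw [zero_smul, zero_add] at h1
  have h5 : (n : ℤ) ∣ j' := by
    rw [← hb]
    exact addOrderOf_dvd_iff_zsmul_eq_zero.mpr h1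
  rw [Prod.mk_eq_zero]
  exact ⟨rfl, (ZMod.intCast_zmod_eq_zero_iff_dvd j' n).mpr h5⟩

/-- A compact Hausdorff torsion-free abelian group with a nonzero element contains `ℤ²`. -/
lemma exists_int_hom {X : Type} [AddCommGroup X] [TopologicalSpace X] [IsTopologicalAddGroup X]
    [CompactSpace X] [T2Space X] (a : X) (ha : ¬ IsOfFinAddOrder a)
    (htf : ∀ b : X, IsOfFinAddOrder b → b = 0) : ∃ ι : ℤ × ℤ →+ X, Injective ι := by
  by_contra hno
  push Not at hno
  let f : ℤ × ℤ → Set X := fun q => {x | q.2 ≠ 0 ∧ q.1 • a + q.2 • x = 0}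
  have hsub : ∀ q, (f q).Subsingleton := by
    rintro q x ⟨hq, hx⟩ y ⟨-, hy⟩
    rw [← sub_eq_zero]
    apply htf
    rw [isOfFinAddOrder_iff_zsmul_eq_zero]
    refine ⟨q.2, hq, ?_⟩
    rw [smul_sub, sub_eq_zero]
    exact add_left_cancel (hx.trans hy.symm)
  have hcl : ∀ q, IsClosed (f q) := fun q => (hsub q).isClosed
  have hun : ⋃ q, f q = Set.univ := by
    rw [Set.eq_univ_iff_forall]
    intro x
    rw [Set.mem_iUnion]
    have h1 := hno ((zmultiplesHom X a).coprod (zmultiplesHom X x))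
    rw [injective_iff_map_eq_zero] at h1
    push Not at h1
    obtain ⟨⟨k, j⟩, h2, h3⟩ := h1
    have h4 : k • a + j • x = 0 := by simpa using h2
    refine ⟨(k, j), ?_, h4⟩
    simp only
    rintro rfl
    rw [zero_smul, add_zero] at h4
    apply ha
    rw [isOfFinAddOrder_iff_zsmul_eq_zero]
    exact ⟨k, fun hk => h3 (by rw [hk]; rfl), h4⟩
  obtain ⟨q, x, hx⟩ := nonempty_interior_of_iUnion_of_closed hcl hun
  have h1 : interior (f q) = {x} :=
    Set.eq_singleton_iff_unique_mem.mpr ⟨hx, fun y hy =>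
      hsub q (interior_subset hy) (interior_subset hx)⟩
  have h2 : IsOpen ({x} : Set X) := h1 ▸ isOpen_interior
  have h3 : IsOpen ({0} : Set X) := by
    have h4 : IsOpen ((fun y : X => y + x) ⁻¹' {x}) := h2.preimage (by fun_prop)
    have h5 : (fun y : X => y + x) ⁻¹' {x} = {0} := by
      ext y
      simp
    rwa [h5] at h4
  have h4 : DiscreteTopology X := discreteTopology_of_isOpen_singleton_zero h3
  have h5 : Finite X := finite_of_compact_of_discrete
  exact ha (isOfFinAddOrder_of_finite a)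

/-- Part 1: for a compact Hausdorff abelian group `X`, the Cancellation Law holds for all
translation-invariant algebras of subsets of `X` if and only if `X` is a torsion group.
Part 2: if `X` has an element of infinite order and an element of order `n ≥ 2` (for instance the
circle group, for every `n ≥ 2`), there are an invariant algebra and `A, B` in it with
`n[A] = n[B]`, such that `r[A] = r[B]` forces `n ∣ r`; in particular not `A ∼ B`. -/
theorem result :
    (∀ (X : Type) [AddCommGroup X] [TopologicalSpace X] [IsTopologicalAddGroup X]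
      [CompactSpace X] [T2Space X],
      (∀ 𝒜 : Set (Set X), InvAlgebra 𝒜 → Cancellation 𝒜) ↔ ∀ x : X, IsOfFinAddOrder x) ∧
    (∀ (X : Type) [AddCommGroup X] (a b : X) (n : ℕ), ¬ IsOfFinAddOrder a → 2 ≤ n →
      addOrderOf b = n →
      ∃ 𝒜 : Set (Set X), InvAlgebra 𝒜 ∧ ∃ A ∈ 𝒜, ∃ B ∈ 𝒜, EquiMul 𝒜 n A B ∧ ¬ Equi 𝒜 A B ∧
        ∀ r : ℕ, EquiMul 𝒜 r A B → n ∣ r) := by
  have part2 : ∀ (X : Type) [AddCommGroup X] (a b : X) (n : ℕ), ¬ IsOfFinAddOrder a → 2 ≤ n →
      addOrderOf b = n →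
      ∃ 𝒜 : Set (Set X), InvAlgebra 𝒜 ∧ ∃ A ∈ 𝒜, ∃ B ∈ 𝒜, EquiMul 𝒜 n A B ∧ ¬ Equi 𝒜 A B ∧
        ∀ r : ℕ, EquiMul 𝒜 r A B → n ∣ r := by
    intro X _ a b n ha hn hb
    have : NeZero n := ⟨by omega⟩
    obtain ⟨ι, hι⟩ := exists_hom (by omega) a b ha hb
    refine ⟨Alg ι, alg_inv ι, Hh ι, alg_Hh ι, Hh ι \ {0},
      (alg_inv ι).1.sdiff_mem (alg_Hh ι) (alg_pt ι hι 0), equiMul_mixed ι hι, ?_,
      fun r hr => dvd_of_equiMul ι hι r hr⟩
    intro h
    have := dvd_of_equiMul ι hι 1 (equiMul_one h)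
    have := Nat.le_of_dvd one_pos this
    omega
  refine ⟨?_, part2⟩
  intro X _ _ _ _ _
  constructor
  · intro h
    by_contra hne
    push Not at hne
    obtain ⟨a, ha⟩ := hne
    by_cases htf : ∀ b : X, IsOfFinAddOrder b → b = 0
    · obtain ⟨ι, hι⟩ := exists_int_hom a ha htf
      obtain ⟨𝒜, A, B, h1, h2, h3, h4, h5, h6⟩ := Counter.aux ι hι
      exact h6 (h 𝒜 ⟨h1, h2⟩ A h3 B h4 2 (by norm_num) h5)
    · push Not at htf
      obtain ⟨b, hb, hb0⟩ := htf
      have h1 : 0 < addOrderOf b := hb.addOrderOf_pos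
      have h2 : addOrderOf b ≠ 1 := fun h => hb0 (AddMonoid.addOrderOf_eq_one_iff.mp h)
      obtain ⟨𝒜, h3, A, h4, B, h5, h6, h7, -⟩ := part2 X a b _ ha (by omega) rfl
      exact h7 (h 𝒜 h3 A h4 B h5 _ (by omega) h6)
  · intro h 𝒜 h𝒜
    exact cancel_of_torsion h 𝒜 h𝒜

end Pool.Agent.Results.MP_59868e_an.ExactlyTorsionGroups
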